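import Pool.Agent.Lib.MP_c7af3c_ag.T2C.IfaceB

/-!
# Row C_P_NORM (helper31)
Normal forms for tuples: the assembly of NQUAD, NSING, N34, N233 by types.
-/

set_option autoImplicit false

namespace Pool.Agent.T2C.H31

open MvPolynomial Pool.Agent.Gen Pool.Agent.Sharp Pool.Agent.Edge
open Pool.Agent.T2 (S3 mulS mem_mulS Sizes Sit CloseStatement QclStatement)
open Pool.Agent.T2C.H8 (Fix T3 HomC lift rs RC sm mulC dT PlC)

theorem norm : NormStatement := by
  intro hqcl hone h1 h2 h3 h4 hquad hsing h34 h233 K _ _ _ n c d q f y hT hc2 hc4 hN M hM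
  have hq : ∀ m, d m = 2 → ∃ e, f m = C e * q :=
    hquad K n c d q f y hT hc2 hc4 hN M hM
  have single : ∀ m0, 3 ≤ d m0 → (∀ m, m ≠ m0 → d m = 2) → HasCfg d q f y := by
    intro m0 h3' h
    refine hsing hone hqcl h1 h2 h3 h4 K n c d q f y hT hN M hM m0 h3' fun m hm => ⟨?_, ?_⟩
    · rw [h m hm]; omega
    · obtain ⟨e, he⟩ := hq m (h m hm)
      rw [h m hm, he]
      refine mem_mulS.2 ⟨C e, isHomogeneous_C _ _, mul_comm _ _⟩
  have hs := hT.sum
  have ht := hT.two
  interval_cases c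
  · -- c = 2
    rw [Fin.sum_univ_two] at hs
    have t0 := ht 0
    have t1 := ht 1
    have c34 : ∀ m0 m1 : Fin 2, d m0 = 3 → d m1 = 4 → (∀ m, m ≠ m1 → m = m0) → HasCfg d q f y := by
      intro m0 m1 hm0 hm1 hor
      by_cases hf : f m0 ∈ mulS q 1
      · refine hsing hone hqcl h1 h2 h3 h4 K n 2 d q f y hT hN M hM m1 (by omega) fun m hm => ?_
        rw [hor m hm, hm0, hm1]
        exact ⟨by omega, hf⟩
      · exact h34 hqcl K d q f y hN M hM m0 m1 hm0 hm1 hf
    have hcase : d 0 = 2 ∨ d 1 = 2 ∨ (d 0 = 3 ∧ d 1 = 4) ∨ (d 1 = 3 ∧ d 0 = 4) := by omega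
    rcases hcase with h | h | ⟨h, h'⟩ | ⟨h, h'⟩
    · refine single 1 (by omega) fun m hm => ?_
      fin_cases m
      · exact h
      · exact absurd rfl hm
    · refine single 0 (by omega) fun m hm => ?_
      fin_cases m
      · exact absurd rfl hm
      · exact h
    · refine c34 0 1 h h' fun m hm => ?_
      fin_cases m
      · rfl
      · exact absurd rfl hm
    · refine c34 1 0 h h' fun m hm => ?_
      fin_cases m
      · exact absurd rfl hm
      · rfl
  · -- c = 3
    rw [Fin.sum_univ_three] at hs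
    have t0 := ht 0
    have t1 := ht 1
    have t2 := ht 2
    have hcase : (d 0 = 2 ∧ d 1 = 2) ∨ (d 0 = 2 ∧ d 2 = 2) ∨ (d 1 = 2 ∧ d 2 = 2) ∨
        (d 0 = 2 ∧ d 1 = 3 ∧ d 2 = 3) ∨ (d 1 = 2 ∧ d 0 = 3 ∧ d 2 = 3) ∨
        (d 2 = 2 ∧ d 0 = 3 ∧ d 1 = 3) := by omega
    rcases hcase with ⟨h, h'⟩ | ⟨h, h'⟩ | ⟨h, h'⟩ | ⟨h, h', h''⟩ | ⟨h, h', h''⟩ | ⟨h, h', h''⟩
    · refine single 2 (by omega) fun m hm => ?_
      fin_cases m
      · exact h
      · exact h'
      · exact absurd rfl hm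
    · refine single 1 (by omega) fun m hm => ?_
      fin_cases m
      · exact h
      · exact absurd rfl hm
      · exact h'
    · refine single 0 (by omega) fun m hm => ?_
      fin_cases m
      · exact absurd rfl hm
      · exact h
      · exact h'
    · exact h233 hqcl K d q f y hN M hM 0 1 2 h h' h'' (by decide) (hq 0 h)
    · exact h233 hqcl K d q f y hN M hM 1 0 2 h h' h'' (by decide) (hq 1 h)
    · exact h233 hqcl K d q f y hN M hM 2 0 1 h h' h'' (by decide) (hq 2 h)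
  · -- c = 4
    rw [Fin.sum_univ_four] at hs
    have t0 := ht 0
    have t1 := ht 1
    have t2 := ht 2
    have t3 := ht 3
    have hcase : (d 0 = 3 ∧ d 1 = 2 ∧ d 2 = 2 ∧ d 3 = 2) ∨ (d 1 = 3 ∧ d 0 = 2 ∧ d 2 = 2 ∧ d 3 = 2) ∨
        (d 2 = 3 ∧ d 0 = 2 ∧ d 1 = 2 ∧ d 3 = 2) ∨ (d 3 = 3 ∧ d 0 = 2 ∧ d 1 = 2 ∧ d 2 = 2) := by
      omega
    rcases hcase with ⟨h, ha, hb, hc⟩ | ⟨h, ha, hb, hc⟩ | ⟨h, ha, hb, hc⟩ | ⟨h, ha, hb, hc⟩
    · refine single 0 (by omega) fun m hm => ?_
      fin_cases m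
      · exact absurd rfl hm
      · exact ha
      · exact hb
      · exact hc
    · refine single 1 (by omega) fun m hm => ?_
      fin_cases m
      · exact ha
      · exact absurd rfl hm
      · exact hb
      · exact hc
    · refine single 2 (by omega) fun m hm => ?_
      fin_cases m
      · exact ha
      · exact hb
      · exact absurd rfl hm
      · exact hc
    · refine single 3 (by omega) fun m hm => ?_
      fin_cases m
      · exact ha
      · exact hb
      · exact hc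
      · exact absurd rfl hm

end Pool.Agent.T2C.H31
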